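import Mathlib
import Pool.Agent.H879Z.LC.Main

namespace Pool.Agent.Results.MP_b5bf4a_co.ABandFormula

open Pool.Agent.H879Z.LC

/-- Write `⌊K/2⌋ = k(k+1)/2 + r` with `0 ≤ r ≤ k`.  For `n ≥ 2k+3` the value `f(n, K+1)` lies
between `nk + ⌊nr/(k+1)⌋ + (K mod 2) + 1` and `nk + ⌊nr/(k+1)⌋ + 2K + 1`, and equals the lower
value in the listed cases. -/
theorem result (n K k r : ℕ) (hr : r ≤ k) (hK : K / 2 = k * (k + 1) / 2 + r)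
    (hn : 2 * k + 3 ≤ n) :
    n * k + n * r / (k + 1) + K % 2 + 1 ≤ f n (K + 1) ∧
    f n (K + 1) ≤ n * k + n * r / (k + 1) + 2 * K + 1 ∧
    (K % 2 = 0 →
      (2 * (k + 1) ∣ n ∨ ((k + 1) ∣ n ∧ (6 * K + 4) * (k + 1) ≤ n) ∨ (r = 0 ∧ 2 * k ^ 2 ≤ n)) →
      f n (K + 1) = n * k + n * r / (k + 1) + 1) :=
  main n K k r hr hK hn

end Pool.Agent.Results.MP_b5bf4a_co.ABandFormula
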